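import Pool.Agent.Helper63.GW.StA
import Pool.Agent.Helper15.AB.M_FO

/-!
# GW module FO4: Fourier representation with four derivatives
-/

set_option autoImplicit false

namespace Pool.Agent.Helper8.GW

open Finset ArithmeticFunction MeasureTheory
open Pool.Agent.Helper15.AB (IsW integrable_FO norm_fourier_le_FO deriv_zero_FO)
open Pool.Agent.Helper63.GW

open scoped FourierTransform RealInnerProductSpace

theorem iter_zero_FO4 {g : ℝ → ℂ} (hs : ∀ t, t ∉ Set.Icc (0 : ℝ) 1 → g t = 0) (n : ℕ) :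
    ∀ t, t ∉ Set.Icc (0 : ℝ) 1 → iteratedDeriv n g t = 0 := by
  induction n with
  | zero => intro t ht; rw [iteratedDeriv_zero]; exact hs t ht
  | succ n ih => rw [iteratedDeriv_succ]; exact deriv_zero_FO ih

theorem hFO4 : StFo4 := by
  intro φ hφ
  set f : ℝ → ℂ := fun t => ((φ t : ℝ) : ℂ) with hf
  have hfs : ContDiff ℝ 4 f := Complex.ofRealCLM.contDiff.comp hφ.smooth
  have hs0 : ∀ t, t ∉ Set.Icc (0 : ℝ) 1 → f t = 0 := fun t ht => by
    rw [hf]; simp [hφ.supp t ht]
  have hsn := iter_zero_FO4 hs0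
  have hcn : ∀ n : ℕ, n ≤ 4 → Continuous (iteratedDeriv n f) := fun n hn =>
    hfs.continuous_iteratedDeriv n (by exact_mod_cast hn)
  have hin : ∀ n : ℕ, n ≤ 4 → Integrable (iteratedDeriv n f) := fun n hn =>
    integrable_FO (hcn n hn) (hsn n)
  have hbn : ∀ n : ℕ, n ≤ 4 → ∃ B : ℝ, ∀ t, ‖iteratedDeriv n f t‖ ≤ B := fun n hn =>
    (hcn n hn).bounded_above_of_compact_support
      (HasCompactSupport.intro isCompact_Icc fun x hx => hsn n x hx)
  have hfc : Continuous f := by simpa using hcn 0 (by norm_num)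
  have hi0 : Integrable f := by simpa using hin 0 (by norm_num)
  obtain ⟨B0, hB0⟩ := hbn 0 (by norm_num)
  obtain ⟨B4, hB4⟩ := hbn 4 le_rfl
  rw [iteratedDeriv_zero] at hB0
  have hF4 := Real.fourier_iteratedDeriv (f := f) (N := 4) (n := 4) hfs
    (fun n hn => hin n (by exact_mod_cast hn)) le_rfl
  set B := B0 + B4 with hB
  have hB0' : 0 ≤ B0 := (norm_nonneg _).trans (hB0 0)
  have hB4' : 0 ≤ B4 := (norm_nonneg _).trans (hB4 0)
  have hbound : ∀ w, ‖𝓕 f w‖ ≤ B / (1 + (2 * Real.pi * w) ^ 4) := by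
    intro w
    have e1 := norm_fourier_le_FO hB0 hs0 w
    have e2 := norm_fourier_le_FO hB4 (hsn 4) w
    rw [hF4] at e2
    simp only [norm_smul, norm_pow, norm_mul, Complex.norm_I, Complex.norm_real,
      Complex.norm_ofNat, Real.norm_eq_abs, mul_one] at e2
    have hpi : |Real.pi| = Real.pi := abs_of_pos Real.pi_pos
    rw [hpi] at e2
    rw [le_div_iff₀ (by positivity)]
    have e3 : (2 * Real.pi * |w|) ^ 4 = (2 * Real.pi * w) ^ 4 := by
      have : |w| ^ 4 = w ^ 4 := Even.pow_abs (by decide) w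
      rw [mul_pow, this, ← mul_pow]
    rw [e3] at e2
    linarith
  have hbound2 : ∀ w, ‖𝓕 f w‖ ≤ 2 * B / (1 + (2 * Real.pi * w) ^ 2) := by
    intro w
    refine (hbound w).trans ?_
    rw [div_le_div_iff₀ (by positivity) (by positivity)]
    have hBB : 0 ≤ B := by rw [hB]; linarith
    nlinarith [mul_nonneg hBB (sq_nonneg ((2 * Real.pi * w) ^ 2 - 1 / 2)),
      mul_nonneg hBB (sq_nonneg ((2 * Real.pi * w) ^ 2))]
  have hFc : Continuous (𝓕 f) := by
    exact VectorFourier.fourierIntegral_continuous Real.continuous_fourierChar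
      (by exact continuous_inner) hi0
  have hFi : Integrable (𝓕 f) := by
    have h1 : Integrable (fun w : ℝ => 2 * B * (1 + (2 * Real.pi * w) ^ 2)⁻¹) := by
      refine Integrable.const_mul ?_ _
      exact integrable_inv_one_add_sq.comp_mul_left' (by positivity)
    refine h1.mono' hFc.aestronglyMeasurable ?_
    refine Filter.Eventually.of_forall fun w => ?_
    rw [← div_eq_mul_inv]
    exact hbound2 w
  have hinv := hfc.fourierInv_fourier_eq hi0 hFi
  refine ⟨fun ξ => (1 / (2 * Real.pi) : ℝ) * 𝓕 f (ξ / (2 * Real.pi)), B + 1, by linarith, ?_, ?_, ?_⟩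
  · exact continuous_const.mul (hFc.comp (continuous_id.div_const _))
  · intro ξ
    rw [norm_mul, Complex.norm_real, Real.norm_eq_abs, abs_of_pos (by positivity)]
    have h1 := hbound (ξ / (2 * Real.pi))
    have h2 : 2 * Real.pi * (ξ / (2 * Real.pi)) = ξ := by
      field_simp
    rw [h2] at h1
    have h3 : (1 : ℝ) / (2 * Real.pi) ≤ 1 := by
      rw [div_le_one (by positivity)]
      have := Real.pi_gt_three
      linarith
    calc 1 / (2 * Real.pi) * ‖𝓕 f (ξ / (2 * Real.pi))‖ ≤ 1 * (B / (1 + ξ ^ 4)) := by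
          gcongr
      _ ≤ (B + 1) / (1 + ξ ^ 4) := by
          rw [one_mul]
          gcongr
          linarith
  · intro t
    have h1 : f t = 𝓕⁻ (𝓕 f) t := by rw [hinv]
    have h2 : 𝓕⁻ (𝓕 f) t = ∫ v : ℝ, Complex.exp ((2 * Real.pi * v * t : ℝ) * Complex.I) * 𝓕 f v := by
      rw [Real.fourierInv_eq']
      congr 1
      funext v
      rw [smul_eq_mul]
      congr 2
      have : inner ℝ v t = v * t := by
        simp [mul_comm]
      rw [this]
      push_cast
      ring
    have h3 := Measure.integral_comp_div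
      (fun v : ℝ => Complex.exp ((2 * Real.pi * v * t : ℝ) * Complex.I) * 𝓕 f v) (2 * Real.pi)
    rw [abs_of_pos (by positivity : (0 : ℝ) < 2 * Real.pi)] at h3
    change f t = _
    rw [h1, h2]
    have h4 : ∀ ξ : ℝ, (1 / (2 * Real.pi) : ℝ) * 𝓕 f (ξ / (2 * Real.pi)) *
        Complex.exp ((ξ * t : ℝ) * Complex.I) = (1 / (2 * Real.pi) : ℝ) *
        (Complex.exp ((2 * Real.pi * (ξ / (2 * Real.pi)) * t : ℝ) * Complex.I) *
          𝓕 f (ξ / (2 * Real.pi))) := by
      intro ξ
      have h5 : 2 * Real.pi * (ξ / (2 * Real.pi)) = ξ := by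
        field_simp
      rw [h5]
      ring
    simp only [h4]
    rw [integral_const_mul, h3]
    rw [Complex.real_smul, ← mul_assoc]
    have h6 : (((1 / (2 * Real.pi) : ℝ)) : ℂ) * ((2 * Real.pi : ℝ) : ℂ) = 1 := by
      rw [← Complex.ofReal_mul]
      have : (1 / (2 * Real.pi) : ℝ) * (2 * Real.pi) = 1 := by
        field_simp
      rw [this, Complex.ofReal_one]
    rw [h6, one_mul]

end Pool.Agent.Helper8.GW
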