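import Pool.Agent.Helper63.GW.StA

/-!
# GW module HB4: the identity of order four in blocks
-/

set_option autoImplicit false

namespace Pool.Agent.Helper8.GW

open Finset ArithmeticFunction MeasureTheory
open Pool.Agent.Helper23.GK
open Pool.Agent.Helper63.GW

/-- the tents sum to one -/
theorem tent_sum (K m : ℕ) (hm : 1 ≤ m) (hK : m ≤ 2 ^ K) :
    ∑ e ∈ range (K + 1), tnt e m = 1 := by
  set x := Real.logb 2 m with hx
  have hm0 : (1 : ℝ) ≤ m := by exact_mod_cast hm
  have hx0 : 0 ≤ x := Real.logb_nonneg (by norm_num) hm0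
  have hxK : x ≤ K := by
    rw [hx, Real.logb_le_iff_le_rpow (by norm_num) (by linarith), Real.rpow_natCast]
    exact_mod_cast hK
  set k := ⌊x⌋₊ with hk
  have hk1 : (k : ℝ) ≤ x := Nat.floor_le hx0
  have hk2 : x < k + 1 := Nat.lt_floor_add_one x
  have hkK : k ≤ K := by
    have : (k : ℝ) ≤ K := hk1.trans hxK
    exact_mod_cast this
  have hk' : tnt k m = 1 - (x - k) := by
    rw [tnt, ← hx, abs_of_nonneg (by linarith), max_eq_right (by linarith)]
  have hk1' : tnt (k + 1) m = x - k := by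
    rw [tnt, ← hx]
    push_cast
    rw [abs_of_nonpos (by linarith), max_eq_right (by linarith)]
    ring
  rw [Finset.sum_eq_add k (k + 1) (by omega), hk', hk1']
  · ring
  · intro c _ hc
    rw [tnt, ← hx]
    apply max_eq_left
    rcases Nat.lt_or_ge c k with h | h
    · have : (c : ℝ) + 1 ≤ k := by exact_mod_cast h
      rw [abs_of_nonneg (by linarith)]
      linarith
    · have h5 : k + 2 ≤ c := by omega
      have : (k : ℝ) + 2 ≤ c := by exact_mod_cast h5
      rw [abs_of_nonpos (by linarith)]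
      linarith
  · intro h
    exact absurd (mem_range.2 (by omega)) h
  · intro h
    rw [mem_range, not_lt] at h
    have h5 : K ≤ k := by omega
    have h6 : (K : ℝ) ≤ k := by exact_mod_cast h5
    rw [hk1']
    linarith

theorem blk_sum (u m : ℕ) (hm : 1 ≤ m) (a : ℝ) :
    ∑ e ∈ range (u + 1), (if m ∈ blk2 e then a else 0) = if m ≤ 2 ^ u then a else 0 := by
  induction u with
  | zero =>
    simp only [zero_add, sum_range_one, pow_zero, blk2, if_true, mem_singleton]
    by_cases h : m = 1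
    · simp [h]
    · rw [if_neg h, if_neg (by omega)]
  | succ u ih =>
    rw [sum_range_succ, ih]
    have e : m ∈ blk2 (u + 1) ↔ 2 ^ u < m ∧ m ≤ 2 ^ (u + 1) := by
      simp [blk2]
    have hp : 2 ^ u ≤ 2 ^ (u + 1) := Nat.pow_le_pow_right (by norm_num) (by omega)
    by_cases h1 : m ≤ 2 ^ u
    · rw [if_pos h1, if_neg (by rw [e]; omega), if_pos (h1.trans hp), add_zero]
    · by_cases h2 : m ≤ 2 ^ (u + 1)
      · rw [if_neg h1, if_pos (by rw [e]; omega), if_pos h2, zero_add]
      · rw [if_neg h1, if_neg (by rw [e]; omega), if_neg h2, zero_add]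

/-- admissible exponents for the `j`-th term -/
def SJ (u j : ℕ) (i : Fin 8) : Finset ℕ :=
  if (i : ℕ) < 4 then (if (i : ℕ) < j then range (u + 1) else {0})
  else if 4 + j ≤ (i : ℕ) then {0} else range (4 * u + 1)

theorem w0_zero (i : Fin 8) (m : ℕ) (hm : 1 ≤ m) (hi : (i : ℕ) ≠ 4) :
    w0 i 0 m = if m = 1 then 1 else 0 := by
  unfold w0
  by_cases h4 : (i : ℕ) < 4
  · rw [if_pos h4]
    by_cases h : m = 1
    · subst h; simp [blk2]
    · rw [if_neg h, if_neg]
      simp [blk2, h]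
  · rw [if_neg h4, if_neg hi]
    by_cases h : m = 1
    · subst h; simp [tnt]
    · rw [if_neg h, tnt]
      apply max_eq_left
      have h2 : (2 : ℝ) ≤ m := by
        have : 2 ≤ m := by omega
        exact_mod_cast this
      have h3 : 1 ≤ Real.logb 2 m := by
        rw [Real.le_logb_iff_rpow_le (by norm_num) (by linarith)]
        simpa using h2
      have h5 : (1 : ℝ) ≤ |Real.logb 2 m - (0 : ℕ)| := by
        simp only [Nat.cast_zero, sub_zero]
        exact h3.trans (le_abs_self _)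
      linarith

theorem vj_eq (u j : ℕ) (hj : 1 ≤ j) (i : Fin 8) (m : ℕ) (hm : 1 ≤ m)
    (hm2 : m ≤ 2 ^ (4 * u)) : vj u j i m = ∑ e ∈ SJ u j i, w0 i e m := by
  unfold SJ vj
  by_cases h4 : (i : ℕ) < 4
  · rw [if_pos h4, if_pos h4]
    by_cases hij : (i : ℕ) < j
    · rw [if_pos hij, if_pos hij, ← blk_sum u m hm]
      apply sum_congr rfl
      intro e _
      rw [w0, if_pos h4]
    · rw [if_neg hij, if_neg hij, sum_singleton, w0_zero i m hm (by omega)]
  · rw [if_neg h4, if_neg h4]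
    by_cases h5 : (i : ℕ) = 4
    · rw [if_pos h5, if_neg (by omega)]
      have : ∀ e, w0 i e m = tnt e m * Real.log m := fun e => by
        rw [w0, if_neg h4, if_pos h5]
      rw [sum_congr rfl (fun e _ => this e), ← sum_mul, tent_sum _ m hm hm2, one_mul]
    · rw [if_neg h5]
      by_cases h6 : 4 + j ≤ (i : ℕ)
      · rw [if_neg (by omega), if_pos h6, sum_singleton, w0_zero i m hm h5]
      · rw [if_pos (by omega), if_neg h6]
        have : ∀ e, w0 i e m = tnt e m := fun e => by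
          rw [w0, if_neg h4, if_neg h5]
        rw [sum_congr rfl (fun e _ => this e), tent_sum _ m hm hm2]

theorem EW_filter (u j : ℕ) (hj : 1 ≤ j) :
    (EW u).filter (fun e => ∀ i : Fin 8, ((j ≤ (i : ℕ) ∧ (i : ℕ) < 4) ∨ 4 + j ≤ (i : ℕ)) → e i = 0)
      = Fintype.piFinset (SJ u j) := by
  ext e
  simp only [EW, mem_filter, Fintype.mem_piFinset, mem_range, SJ]
  constructor
  · rintro ⟨⟨h1, h2⟩, h3⟩ i
    have a1 := h1 i
    have a2 := h2 i
    have a3 := h3 i
    split_ifs with b1 b2 b3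
    · rw [mem_range]; have := a2 b1; omega
    · rw [mem_singleton]; exact a3 (Or.inl ⟨by omega, b1⟩)
    · rw [mem_singleton]; exact a3 (Or.inr b3)
    · rw [mem_range]; omega
  · intro h
    refine ⟨⟨fun i => ?_, fun i hi => ?_⟩, fun i hi => ?_⟩
    · have := h i
      split_ifs at this with b1 b2 b3
      · rw [mem_range] at this; omega
      · rw [mem_singleton] at this; omega
      · rw [mem_singleton] at this; omega
      · rw [mem_range] at this; omega
    · have := h i
      rw [if_pos hi] at this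
      split_ifs at this with b2
      · rw [mem_range] at this; omega
      · rw [mem_singleton] at this; omega
    · have := h i
      rcases hi with ⟨c1, c2⟩ | c1
      · rw [if_pos c2, if_neg (by omega), mem_singleton] at this; exact this
      · rw [if_neg (by omega), if_pos c1, mem_singleton] at this; exact this

/-- the coefficients -/
noncomputable def cj (j : ℕ) : ℝ := (-1 : ℝ) ^ (j + 1) * (Nat.choose 4 j : ℝ)

/-- expansion for one tuple -/
theorem expand (u : ℕ) (n : Fin 8 → ℕ) (hn : ∀ i, 1 ≤ n i ∧ n i ≤ 2 ^ (4 * u)) :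
    ∑ e ∈ EW u, cf e * ∏ i, w0 i (e i) (n i) =
      ∑ j ∈ Icc (1 : ℕ) 4, cj j * ∏ i, vj u j i (n i) := by
  classical
  have h1 : ∀ e, cf e * ∏ i, w0 i (e i) (n i) = ∑ j ∈ Icc (1 : ℕ) 4,
      (if (∀ i : Fin 8, ((j ≤ (i : ℕ) ∧ (i : ℕ) < 4) ∨ 4 + j ≤ (i : ℕ)) → e i = 0) then
        cj j * ∏ i, w0 i (e i) (n i) else 0) := by
    intro e
    rw [cf, sum_mul]
    apply sum_congr rfl
    intro j _
    unfold cj
    split_ifs
    · ring
    · ring
  rw [sum_congr rfl (fun e _ => h1 e), sum_comm]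
  apply sum_congr rfl
  intro j hj
  rw [mem_Icc] at hj
  rw [← sum_filter, EW_filter u j hj.1, ← mul_sum]
  congr 1
  rw [← Finset.prod_univ_sum (SJ u j) (fun i e => w0 i e (n i))]
  apply prod_congr rfl
  intro i _
  rw [vj_eq u j hj.1 i (n i) (hn i).1 (hn i).2]

theorem w0_big (i : Fin 8) (e m : ℕ) (hm : 1 ≤ m) (h : 2 ^ (e + 1) < m) : w0 i e m = 0 := by
  unfold w0
  by_cases h4 : (i : ℕ) < 4
  · rw [if_pos h4, if_neg]
    intro hmem
    unfold blk2 at hmem
    split_ifs at hmem with h0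
    · rw [mem_singleton] at hmem
      subst h0
      norm_num at h
      omega
    · rw [mem_Ioc] at hmem
      have : 2 ^ e ≤ 2 ^ (e + 1) := Nat.pow_le_pow_right (by norm_num) (by omega)
      omega
  · have ht : tnt e m = 0 := by
      rw [tnt]
      apply max_eq_left
      have h2 : ((e : ℝ) + 1) ≤ Real.logb 2 m := by
        rw [Real.le_logb_iff_rpow_le (by norm_num) (by positivity)]
        have : (2 : ℝ) ^ ((e : ℝ) + 1) = ((2 ^ (e + 1) : ℕ) : ℝ) := by
          push_cast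
          rw [← Real.rpow_natCast]
          push_cast
          rfl
        rw [this]
        exact_mod_cast h.le
      have h5 : (1 : ℝ) ≤ |Real.logb 2 m - e| := (by linarith : (1:ℝ) ≤ Real.logb 2 m - e).trans
        (le_abs_self _)
      linarith
    rw [if_neg h4, ht]
    split_ifs <;> simp

theorem Te8_eq (u : ℕ) (g : ℕ → ℂ) (hg : ∀ n, 2 ^ (4 * u) < n → g n = 0) (e : Fin 8 → ℕ) :
    Te8 g e = ∑ n ∈ Fintype.piFinset (fun _ : Fin 8 => Icc 1 (2 ^ (4 * u))),
      (∏ i, ((w0 i (e i) (n i) : ℝ) : ℂ)) * g (∏ i, n i) := by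
  classical
  unfold Te8
  rw [sum_subset (subset_union_left (s₂ := Fintype.piFinset (fun _ : Fin 8 => Icc 1 (2 ^ (4 * u)))))
    (f := fun n : Fin 8 → ℕ => (∏ i, ((w0 i (e i) (n i) : ℝ) : ℂ)) * g (∏ i, n i)), eq_comm,
    sum_subset (subset_union_right (s₁ := Fintype.piFinset (fun i : Fin 8 => Icc 1 (2 ^ (e i + 1)))))]
  · intro n hn hn2
    have h1 : ∀ i, n i ∈ Icc 1 (2 ^ (e i + 1)) := by
      rw [mem_union] at hn
      exact Fintype.mem_piFinset.1 (hn.resolve_right hn2)
    rw [Fintype.mem_piFinset] at hn2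
    push Not at hn2
    obtain ⟨i, hi⟩ := hn2
    have hpos : ∀ k, 1 ≤ n k := fun k => (mem_Icc.1 (h1 k)).1
    have hbig : 2 ^ (4 * u) < n i := by
      by_contra hcon
      exact hi (mem_Icc.2 ⟨hpos i, by omega⟩)
    have hdvd : n i ∣ ∏ k, n k := dvd_prod_of_mem _ (mem_univ i)
    have hprod : 0 < ∏ k, n k := prod_pos (fun k _ => hpos k)
    rw [hg _ (lt_of_lt_of_le hbig (Nat.le_of_dvd hprod hdvd)), mul_zero]
  · intro n hn hn2
    have h1 : ∀ i, n i ∈ Icc 1 (2 ^ (4 * u)) := by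
      rw [mem_union] at hn
      exact Fintype.mem_piFinset.1 (hn.resolve_left hn2)
    rw [Fintype.mem_piFinset] at hn2
    push Not at hn2
    obtain ⟨i, hi⟩ := hn2
    have h1i := h1 i
    rw [mem_Icc] at h1i hi
    have hz : w0 i (e i) (n i) = 0 := w0_big i (e i) (n i) h1i.1 (by
      by_contra hcon
      exact hi ⟨h1i.1, by omega⟩)
    rw [prod_eq_zero (mem_univ i) (by rw [hz, Complex.ofReal_zero]), zero_mul]

theorem fiber (M : ℕ) (g : ℕ → ℂ) (hg : ∀ n, M < n → g n = 0) (F : (Fin 8 → ℕ) → ℂ) :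
    ∑ n ∈ Icc 1 M, (∑ x ∈ (Fintype.piFinset (fun _ : Fin 8 => n.divisors)).filter
      (fun x => ∏ i, x i = n), F x) * g n =
    ∑ x ∈ Fintype.piFinset (fun _ : Fin 8 => Icc 1 M), F x * g (∏ i, x i) := by
  classical
  have h1 : ∑ x ∈ Fintype.piFinset (fun _ : Fin 8 => Icc 1 M), F x * g (∏ i, x i) =
      ∑ x ∈ (Fintype.piFinset (fun _ : Fin 8 => Icc 1 M)).filter (fun x => ∏ i, x i ∈ Icc 1 M),
        F x * g (∏ i, x i) := by
    rw [sum_filter_of_ne]
    intro x hx hne
    rw [mem_Icc]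
    have hpos : ∀ k, 1 ≤ x k := fun k => (mem_Icc.1 (Fintype.mem_piFinset.1 hx k)).1
    refine ⟨Nat.succ_le_of_lt (prod_pos (fun k _ => hpos k)), ?_⟩
    by_contra hcon
    push Not at hcon
    exact hne (by rw [hg _ hcon, mul_zero])
  rw [h1, ← sum_fiberwise_of_maps_to (t := Icc 1 M) (g := fun x : Fin 8 → ℕ => ∏ i, x i)
    (fun x hx => (mem_filter.1 hx).2)]
  apply sum_congr rfl
  intro n hn
  rw [mem_Icc] at hn
  rw [sum_mul]
  apply sum_congr_of_eq_on_inter
  · intro x hx hx2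
    exfalso
    apply hx2
    rw [mem_filter, Fintype.mem_piFinset] at hx
    rw [mem_filter, mem_filter, Fintype.mem_piFinset]
    refine ⟨⟨fun i => ?_, ?_⟩, hx.2⟩
    · have := Nat.mem_divisors.1 (hx.1 i)
      rw [mem_Icc]
      have h5 := Nat.pos_of_dvd_of_pos this.1 (by omega)
      have h6 := Nat.le_of_dvd (by omega) this.1
      omega
    · rw [hx.2, mem_Icc]; exact hn
  · intro x hx hx2
    exfalso
    apply hx2
    rw [mem_filter, mem_filter, Fintype.mem_piFinset] at hx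
    rw [mem_filter, Fintype.mem_piFinset]
    refine ⟨fun i => ?_, hx.2⟩
    rw [Nat.mem_divisors]
    refine ⟨?_, by omega⟩
    rw [← hx.2]
    exact dvd_prod_of_mem _ (mem_univ i)
  · intro x hx _
    rw [(mem_filter.1 hx).2]

theorem hHB4 : StHbi → StHb4 := by
  classical
  intro hH u g hg
  have e1 : ∀ e, ((cf e : ℝ) : ℂ) * Te8 g e =
      ∑ n ∈ Fintype.piFinset (fun _ : Fin 8 => Icc 1 (2 ^ (4 * u))),
        (((cf e * ∏ i, w0 i (e i) (n i) : ℝ)) : ℂ) * g (∏ i, n i) := by
    intro e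
    rw [Te8_eq u g hg e, mul_sum]
    apply sum_congr rfl
    intro n _
    push_cast
    ring
  rw [sum_congr rfl (fun e _ => e1 e), sum_comm]
  have e2 : ∀ n ∈ Fintype.piFinset (fun _ : Fin 8 => Icc 1 (2 ^ (4 * u))),
      ∑ e ∈ EW u, (((cf e * ∏ i, w0 i (e i) (n i) : ℝ)) : ℂ) * g (∏ i, n i) =
      ((∑ j ∈ Icc (1 : ℕ) 4, cj j * ∏ i, vj u j i (n i) : ℝ) : ℂ) * g (∏ i, n i) := by
    intro n hn
    rw [← expand u n (fun i => mem_Icc.1 (Fintype.mem_piFinset.1 hn i)), ← sum_mul]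
    push_cast
    rfl
  rw [sum_congr rfl e2, ← fiber (2 ^ (4 * u)) g hg
    (fun n => ((∑ j ∈ Icc (1 : ℕ) 4, cj j * ∏ i, vj u j i (n i) : ℝ) : ℂ))]
  apply sum_congr rfl
  intro n hn
  rw [mem_Icc] at hn
  rw [hH u n hn.1 hn.2]
  congr 1
  rw [← Complex.ofReal_sum, sum_comm]
  congr 1
  apply sum_congr rfl
  intro j _
  rw [mul_sum]
  rfl

end Pool.Agent.Helper8.GW
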